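import Pool.Agent.Lib.MP_305fdd_al.CZ.W.Defs
import Pool.Agent.Lib.MP_305fdd_al.CZ.P.Defs
import Pool.Agent.Lib.MP_305fdd_al.CZ.E.Ifc

/-!
# MP_305fdd_al (`C_m * Z`): the context of section P from the core data
-/

set_option autoImplicit false

namespace Pool.Agent.CZM

open Pool.Agent.CZ Pool.Agent.F2Ch Pool.Agent.F2RF Pool.Agent.F2PF

section

variable {p m : ℕ} [Fact p.Prime] {k K G : Type} [Field k] [CharP k p] [IsAlgClosed k]
  [Field K] [Algebra k K] [Group G] (C : Core p m k K G)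

theorem lex_of_fst {x : ℝ ×ₗ ℝ} (h : (ofLex x).1 = 0) :
    (0 < x ↔ 0 < (ofLex x).2) ∧ (x < 0 ↔ (ofLex x).2 < 0) ∧ (x = 0 ↔ (ofLex x).2 = 0) := by
  have h0 : (ofLex (0 : ℝ ×ₗ ℝ)) = (0, 0) := rfl
  refine ⟨?_, ?_, ?_⟩
  · rw [Prod.Lex.lt_iff, h0, h]
    simp
  · rw [Prod.Lex.lt_iff, h0, h]
    simp
  · constructor
    · intro hx
      rw [hx]
      rfl
    · intro hx
      apply ofLex.injective
      rw [h0]
      exact Prod.ext h hx

theorem c2_mul {V : K → ℝ ×ₗ ℝ} (hV : IsV V) {f g : K} (hf : f ≠ 0) (hg : g ≠ 0) :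
    c2 V (f * g) = c2 V f + c2 V g := by
  unfold c2
  rw [hV.mul f g hf hg]
  rfl

theorem val_eq_zero {Γ : Type} [AddCommGroup Γ] [LinearOrder Γ] [IsOrderedAddMonoid Γ]
    {V : K → Γ} (hV : IsV V) {x : K} (hx : x ≠ 0) (h : Gt V 0 (x - 1)) : V x = 0 := by
  have h1 : V 1 = 0 := by
    have := hV.mul 1 1 one_ne_zero one_ne_zero
    rw [one_mul] at this
    exact (left_eq_add.1 this)
  have hneg1 : V (-1) = 0 := by
    have h2 := hV.mul (-1) (-1) (neg_ne_zero.2 one_ne_zero) (neg_ne_zero.2 one_ne_zero)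
    rw [neg_mul_neg, one_mul, h1] at h2
    by_contra hne
    rcases lt_or_gt_of_ne hne with h3 | h3
    · exact absurd h2 (add_neg h3 h3).ne'
    · exact absurd h2 (add_pos h3 h3).ne
  rcases eq_or_ne (x - 1) 0 with h0 | h0
  · rw [sub_eq_zero.1 h0, h1]
  rcases h with h | h
  · exact absurd h h0
  have hneg : V (-(x - 1)) = V (x - 1) := by
    rw [← neg_one_mul, hV.mul _ _ (neg_ne_zero.2 one_ne_zero) h0, hneg1, zero_add]
  refine le_antisymm ?_ ?_
  · have := hV.add x (-(x - 1)) hx (neg_ne_zero.2 h0) (by ring_nf; exact one_ne_zero)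
    rw [show x + -(x - 1) = 1 by ring, h1, hneg] at this
    rcases min_le_iff.1 this with h2 | h2
    · exact h2
    · exact absurd h2 (not_le.2 h)
  · have := hV.add (x - 1) 1 h0 one_ne_zero (by ring_nf; exact hx)
    rw [show x - 1 + 1 = x by ring, h1, min_eq_right h.le] at this
    exact this

theorem ctx (hL : CZW.Loc C) (h1 : I_E1) (h2 : I_E2) (h3 : I_E3) (h4 : I_E4)
    (hon : ¬ Onto m G C.c) : ∃ s0 : K, CZP.CtxZ k p C.φ C.t C.RR C.ι s0 := by
  obtain ⟨σ, hσ⟩ := C.res_surj (AddMonoidAlgebra.single 1 1)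
  have hσr : C.res σ ≠ 0 := by
    rw [hσ]
    intro h
    have := congrArg (fun x => x.coeff 1) h
    simp at this
  have hσ0 : (σ : K) ≠ 0 := by
    intro h
    apply hσr
    have : σ = 0 := Subtype.ext h
    rw [this, map_zero]
  have hσB : (σ : K) ∈ Br k C.t := (hL.mem _).2 σ.2
  have hσR : C.RR σ = 0 := by
    refine le_antisymm ?_ (hL.rnn _ hσB hσ0)
    by_contra hlt
    obtain ⟨-, hb, h0⟩ := (hL.rI _ hσB hσ0).1 (not_le.1 hlt)
    exact hσr h0
  have hfst : ∀ V, Flag k p C.φ C.RR V → (ofLex (V (σ : K))).1 = 0 := fun V hV => by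
    rw [hV.fst, hσR]
  obtain ⟨σ', hσ', hc⟩ := hL.i_res σ
  have hσ'r : C.res σ' = AddMonoidAlgebra.single (-1) 1 := by
    ext n
    rw [hc n, hσ]
    simp only [AddMonoidAlgebra.coeff_single]
    rcases eq_or_ne n (-1) with h | h
    · subst h
      simp
    · rw [Finsupp.single_eq_of_ne (by omega), Finsupp.single_eq_of_ne (by omega),
        zero_pow (Fact.out : p.Prime).ne_zero]
  have hσ'0 : C.ι σ ≠ 0 := by
    rw [Ne, map_eq_zero]
    exact hσ0
  have hsum : ∀ V, Flag k p C.φ C.RR V → c2 V (σ : K) + c2 V (C.ι σ) = 0 := by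
    intro V hV
    rw [← c2_mul hV.inz.isv hσ0 hσ'0]
    have hres : C.res (σ * σ' - 1) = 0 := by
      rw [map_sub, map_mul, hσ, hσ'r, map_one, AddMonoidAlgebra.single_mul_single,
        AddMonoidAlgebra.one_def, mul_one, show (1 : ℤ) + -1 = 0 by norm_num, sub_self]
    have hgt : Gt V 0 ((σ : K) * C.ι σ - 1) := by
      rcases eq_or_ne ((σ : K) * C.ι σ - 1) 0 with h | h
      · exact Or.inl h
      · right
        have hmem : ((σ : K) * C.ι σ - 1) ∈ C.B := by
          have := (σ * σ' - 1).2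
          push_cast [hσ'] at this
          exact this
        have hR : 0 < C.RR ((σ : K) * C.ι σ - 1) := by
          refine (hL.rI _ ((hL.mem _).2 hmem) h).2 ⟨h, hmem, ?_⟩
          have : (⟨(σ : K) * C.ι σ - 1, hmem⟩ : C.B) = σ * σ' - 1 := by
            apply Subtype.ext
            push_cast [hσ']
            rfl
          rw [this, hres]
        rw [Prod.Lex.lt_iff]
        left
        rw [hV.fst]
        exact hR
    have := val_eq_zero hV.inz.isv (mul_ne_zero hσ0 hσ'0) hgt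
    unfold c2
    rw [this]
    rfl
  refine ⟨σ, ⟨C.b0, C.ρ0, ⟨C.fracgen, C.pb, C.pinv, C.one⟩⟩, ?_⟩
  have hnt : ∀ w : K → ℝ, AtInf (Br k C.t) w → ∃ f, w f ≠ 0 := fun w hw => by
    obtain ⟨f, -, -, hf⟩ := hw
    exact ⟨f, hf.ne⟩
  exact
    { Rinz := hL.rinz
      Rdv := hL.rdv
      Rnn := hL.rnn
      Rpos := ⟨C.j0, by
        rw [C.κ0_t]
        unfold Core.RR
        rw [C.R_κ0]
        norm_num⟩
      R9 := hL.r9
      sB := ⟨hσB, hσ0, hσR⟩
      sne := fun V hV h => hL.fR1 V hV σ hσ ((lex_of_fst (hfst V hV)).2.2.2 h)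
      sun := fun V V' hV hV' h => hL.fR2 V V' hV hV' σ hσ
        (((lex_of_fst (hfst V hV)).1.trans h).trans (lex_of_fst (hfst V' hV')).1.symm)
      sex := by
        obtain ⟨V, hV, -, hs⟩ := hL.fR0
        exact ⟨V, hV, (lex_of_fst (hfst V hV)).1.1 (hs σ hσ).1⟩
      sio := fun V hV => by
        have := hsum V hV
        constructor <;> intro h <;> linarith
      ld := hL.ld
      l2 := fun w hw hd ha V hV => hL.l2 w hw hd (hnt w ha) V hV
      l3 := hL.l3
      l6 := fun w hw hd ha hs V V' h1 h2 h3 _ => hL.l6 w hw hd ha hs V V' h1 h2 h3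
      ik := C.ι_k
      iB := fun f => (hL.i_B f).symm
      iφ := C.ι_φ
      iR := fun f => congrFun hL.i_R f
      iper := hL.i_N
      ineg := fun v hv ha => by
        obtain ⟨⟨l, hl⟩, -⟩ := hL.inf v hv ha
        refine ⟨C.T l, (hL.mem _).2 (C.T_mem l), ?_, C.ι_T l, hl⟩
        intro h0
        rw [h0, hv.isv.zero] at hl
        exact lt_irrefl _ hl
      iinz := hL.i_inz
      icl := hL.i_cl
      E1 := fun s1 s2 y M hy hall => h1 p m k K G C hon s1 s2 y M hy hall
      E2 := fun w hw hd ha _ hi V V' h3 h4 h5 h6 =>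
        h2 p m k K G C hon w hw hd ha hi V V' h3 h4 h5 h6
      E3 := fun w hw hd ha hi V hV hall hb => h3 p m k K G C hon w hw hd ha hi V hV hb
        fun V' hV' => by
          rcases hall V' hV' with h | h
          · exact Or.inl fun f => (h f).symm
          · exact Or.inr fun f => (h f).symm
      E4 := fun w hw hd ha hs hi hneg => h4 p m k K G C hon w hw hd hs ha hi fun f hf =>
        hneg f ((hL.mem _).2 hf.2.1) hf.1
          ((hL.rI f ((hL.mem _).2 hf.2.1) hf.1).2 hf) }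

end

end Pool.Agent.CZM
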