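import Pool.Agent.Lib.MP_305fdd_al.CZ.Defs
import Pool.Agent.Lib.MP_305fdd_al.Genus

/-!
# MP_305fdd_al: the groups `C_m * Z` are profinitely rigid. Reduction to the core data
-/

set_option autoImplicit false

namespace Pool.Agent.CZM

open Pool.Agent.CZ Pool.Agent.MP_305fdd_al Pool.Agent.Lib.MP_305fdd_al

/-- a surjection of the central extension onto `C_m * Z` descends -/
theorem onto_quot {m : ℕ} {G Λ : Type} [Group G] [Group Λ] {c : G} (h : Onto m G c) (π : G →* Λ)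
    (hπ : Function.Surjective π) (hk : ∀ g, π g = 1 → g = 1 ∨ g = c) :
    ∃ f : Λ →* Monoid.Coprod (Multiplicative (ZMod m)) (Multiplicative ℤ),
      Function.Surjective f := by
  obtain ⟨f, hf, hc⟩ := h
  have hker : π.ker ≤ f.ker := by
    intro g hg
    rw [MonoidHom.mem_ker] at hg ⊢
    rcases hk g hg with h | h
    · rw [h, map_one]
    · rw [h, hc]
  refine ⟨π.liftOfSurjective hπ ⟨f, hker⟩, fun w => ?_⟩
  obtain ⟨g, rfl⟩ := hf w
  exact ⟨π g, MonoidHom.liftOfRightInverse_comp_apply _ _ _ _ _⟩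

/-- there is a prime number congruent to `-1` modulo `2 m` -/
theorem exists_prime (m : ℕ) (hm : 2 ≤ m) : ∃ p : ℕ, p.Prime ∧ p ≠ 2 ∧ 2 * m ∣ p + 1 := by
  have : NeZero (2 * m) := ⟨by omega⟩
  obtain ⟨p, hp2, hp, hpa⟩ := Nat.forall_exists_prime_gt_and_eq_mod (q := 2 * m) (a := -1)
    (isUnit_one.neg) 2
  refine ⟨p, hp, hp2.ne', ?_⟩
  rw [← ZMod.natCast_eq_zero_iff, Nat.cast_add, hpa, Nat.cast_one, neg_add_cancel]

/-- Reduction to the core data. -/
theorem rigid_of_core (m : ℕ) (hm : 2 ≤ m)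
    (hA : ∀ (Λ : Type) [Group Λ] [Group.FG Λ],
      SameFiniteQuotients Λ (Monoid.Coprod (Multiplicative (ZMod m)) (Multiplicative ℤ)) →
      ∀ (p : ℕ) [Fact p.Prime], p ≠ 2 → 2 * m ∣ p + 1 →
      ∃ (K G : Type) (_ : Field K) (_ : Algebra (AlgebraicClosure (ZMod p)) K) (_ : Group G)
        (C : Core p m (AlgebraicClosure (ZMod p)) K G) (π : G →* Λ), Function.Surjective π ∧
        ∀ g, π g = 1 → g = 1 ∨ g = C.c)
    (hB : ∀ (p : ℕ) [Fact p.Prime] (K G : Type) [Field K] [Algebra (AlgebraicClosure (ZMod p)) K]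
      [Group G] (C : Core p m (AlgebraicClosure (ZMod p)) K G), Onto m G C.c) :
    ProfinitelyRigid (Monoid.Coprod (Multiplicative (ZMod m)) (Multiplicative ℤ)) := by
  intro Λ _ hΛ
  have h1 : Group.FG Λ := hΛ.1
  have h2 : Group.ResiduallyFinite Λ := hΛ.2.1
  obtain ⟨p, hp, hp2, hpm⟩ := exists_prime m hm
  haveI : Fact p.Prime := ⟨hp⟩
  obtain ⟨K, G, i1, i2, i3, C, π, hπ, hk⟩ := hA Λ hΛ.2.2 p hp2 hpm
  obtain ⟨f, hf⟩ := onto_quot (hB p K G C) π hπ hk
  have h3 : Group.FG (Monoid.Coprod (Multiplicative (ZMod m)) (Multiplicative ℤ)) :=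
    Group.fg_of_surjective hf
  exact ⟨MulEquiv.ofBijective f ⟨injective_of_surj hΛ.2.2 f hf, hf⟩⟩

end Pool.Agent.CZM
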