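import Pool.Agent.Lib.MP_305fdd_al.CZ.M.Ctx
import Pool.Agent.Lib.MP_305fdd_al.CZ.M.Red
import Pool.Agent.Lib.MP_305fdd_al.CZ.A.Final
import Pool.Agent.Lib.MP_305fdd_al.CZ.E.Main
import Pool.Agent.Lib.MP_305fdd_al.CZ.E1.Main
import Pool.Agent.Lib.MP_305fdd_al.CZ.P.Main

/-!
# MP_305fdd_al: the groups `C_m * Z` are profinitely rigid
-/

set_option autoImplicit false

namespace Pool.Agent.CZM

open Pool.Agent.CZ Pool.Agent.MP_305fdd_al

/-- the core data give a surjection onto `C_m * Z` -/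
theorem onto_of_core {p m : ℕ} [Fact p.Prime] {k K G : Type} [Field k] [CharP k p]
    [IsAlgClosed k] [Field K] [Algebra k K] [Group G] (C : Core p m k K G) : Onto m G C.c :=
  CZP.onto_of C (CZW.loc C) CZE1.m_E1 CZE.m_E2 CZE.m_E3 CZE.m_E4

/-- THE GROUPS `C_m * Z`, `m ≥ 2`, ARE PROFINITELY RIGID IN THE ABSOLUTE SENSE. -/
theorem cz_rigid (m : ℕ) (hm : 2 ≤ m) :
    ProfinitelyRigid (Monoid.Coprod (Multiplicative (ZMod m)) (Multiplicative ℤ)) :=
  rigid_of_core m hm (fun Λ _ _ hΛ p _ hp hpm => CZA.exists_core m hm Λ hΛ p hp hpm)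
    fun _ _ _ _ _ _ _ C => onto_of_core C

end Pool.Agent.CZM
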